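import Pool.Agent.H10.Ury1

namespace Pool.Agent.Results.MP_30c7ca_gt.Torsion
open Pool.Agent.H10.Ury Filter Topology

variable {Q : Type} [MetricSpace Q]

theorem rat_half {a : ℝ} : a ∈ ratDist → a / 2 ∈ ratDist := by
  rintro ⟨q, h, rfl⟩
  exact ⟨q / 2, by positivity, by simp⟩

theorem approach (h : Urysohn ratDist Q) (e : ℤ → Q) (he : Function.Surjective e) (N : ℤ → ℝ)
    (hN : ∀ m n, dist (e m) (e n) = N (m - n)) (w : ℤ) (δ : ℝ) (d0 : 0 < δ) (d1 : δ ∈ ratDist) :
    ∃ y, N (2 * y) ≤ δ ∧ N (y - w) ≤ N (2 * w) / 2 := by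
  have rat : ∀ n, N n ∈ ratDist := fun n => by simpa [hN] using h.val (e n) (e 0)
  have sy : ∀ n, N (-n) = N n := fun n => by simpa [hN] using dist_comm (e 0) (e n)
  have z0 : N 0 = 0 := by simpa using (hN 0 0).symm
  have A : ∀ m : ℕ, ∃ z, N (2 * z) ≤ δ ∧ N (z - w) ≤ max (N w - m * (δ / 2)) (N (2 * w) / 2) ∧
      N (z + w) ≤ max (N w - m * (δ / 2)) (N (2 * w) / 2) := fun m => by
    induction m with
    | zero => exact ⟨0, by simpa [z0] using d0.le, by simp [sy], by simp⟩
    | succ m ih =>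
      obtain ⟨z, a, b, c⟩ := ih
      set E := max (N w - (m + 1 : ℕ) * (δ / 2)) (N (2 * w) / 2) with hE
      have e1 : max (N w - m * (δ / 2)) (N (2 * w) / 2) ≤ δ / 2 + E := by
        have := le_max_left (N w - (m + 1 : ℕ) * (δ / 2)) (N (2 * w) / 2)
        have := le_max_right (N w - (m + 1 : ℕ) * (δ / 2)) (N (2 * w) / 2)
        push_cast at *
        exact max_le (by linarith) (by linarith)
      have e2 : N (2 * w) / 2 ≤ E := le_max_right _ _
      have e3 : E ∈ ratDist := by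
        obtain ⟨p, -, p2⟩ := rat w
        obtain ⟨q, q1, q2⟩ := rat (2 * w)
        obtain ⟨r, -, r2⟩ := d1
        exact ⟨max (p - (m + 1) * (r / 2)) (q / 2), le_max_of_le_right (by positivity), by
          simp [hE, p2, q2, r2]⟩
      have e4 := rat_nn e3
      have s1 : N (-(2 * z)) = N (2 * z) := sy _
      have s2 : N (-(z - w)) = N (z - w) := sy _
      have s3 : N (-(z + w)) = N (z + w) := sy _
      have s4 : N (-(2 * w)) = N (2 * w) := sy _
      obtain ⟨t, t1, -⟩ := amalg h cap_id Finset.univ Finset.univ_nonempty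
        (fun i : Fin 4 => e (![0, -2 * z, w - z, -w - z] i)) ![δ / 2, δ / 2, E, E]
        (fun i => by fin_cases i; exacts [rat_half d1, rat_half d1, e3, e3]) (fun i _ j _ => by
          rw [hN]
          fin_cases i <;> fin_cases j <;> simp only [Fin.isValue, Fin.zero_eta, Fin.mk_one,
            Fin.reduceFinMk, Matrix.cons_val] <;> ring_nf at * <;> linarith) ∅
      obtain ⟨n, rfl⟩ := he t
      have t0 := t1 0 (by simp)
      have t2 := t1 1 (by simp)
      have t3 := t1 2 (by simp)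
      have t4 := t1 3 (by simp)
      have t5 := dist_triangle (e (2 * (z + n))) (e n) (e 0)
      simp only [hN, Fin.isValue, Matrix.cons_val] at t0 t2 t3 t4 t5
      refine ⟨z + n, ?_, ?_, ?_⟩ <;> ring_nf at * <;> linarith
  obtain ⟨m, hm⟩ := exists_nat_ge (N w / (δ / 2))
  obtain ⟨z, a, b, -⟩ := A m
  rw [div_le_iff₀ (by positivity)] at hm
  exact ⟨z, a, b.trans (max_le (by linarith [rat_nn (rat (2 * w))]) le_rfl)⟩

theorem start (h : Urysohn ratDist Q) (e : ℤ → Q) (he : Function.Bijective e) (N : ℤ → ℝ)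
    (hN : ∀ m n, dist (e m) (e n) = N (m - n)) : ∃ w, N (2 * w) < 2 * N w := by
  have p : 0 < N 1 := by simpa [hN] using dist_pos.2 (he.1.ne (one_ne_zero (α := ℤ)))
  have sy : N (-1) = N 1 := by simpa [hN] using dist_comm (e 0) (e 1)
  obtain ⟨t, t1, t2⟩ := amalg h cap_id Finset.univ Finset.univ_nonempty
    (fun b => e (cond b 0 (-2))) (fun _ => N 1) (fun _ => by simpa [hN] using h.val (e 1) (e 0))
    (fun i _ j _ => (dist_triangle _ (e (-1)) _).trans (by
      cases i <;> cases j <;> simp [hN, sy])) {e (-1)}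
  obtain ⟨n, rfl⟩ := he.2 t
  obtain ⟨i, -, k⟩ := t2 (e (-1)) (by simp)
  have a := t1 true (by simp)
  have b := t1 false (by simp)
  have c := dist_triangle (e (2 * (n + 1))) (e n) (e 0)
  have : N (n + 1) = 2 * N 1 := by cases i <;> simp [hN, sy] at k <;> linarith
  simp only [hN, cond] at a b c
  refine ⟨n + 1, ?_⟩
  ring_nf at *
  linarith

theorem result (Q : Type) [MetricSpace Q] (h : Urysohn ratDist Q)
    (U : Type) [MetricSpace U] [CompleteSpace U] (ι : Q → U) (hι : Isometry ι) (hd : DenseRange ι)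
    (σ : Q ≃ᵢ Q) (hσ : ∀ x y : Q, ∃! n : ℤ, (σ ^ n) x = y)
    (τ : U ≃ᵢ U) (hτ : ∀ x, τ (ι x) = ι (σ x)) :
    ∃ g : U ≃ᵢ U, g ∈ @closure (U ≃ᵢ U)
      (TopologicalSpace.induced (fun f : U ≃ᵢ U => (f : U → U)) Pi.topologicalSpace)
      (Subgroup.zpowers τ : Set (U ≃ᵢ U)) ∧ g ≠ 1 ∧ IsOfFinOrder g := by
  obtain ⟨f, -⟩ := h.univ Unit fun _ _ => ⟨0, le_rfl, by simp⟩
  let e : ℤ → Q := fun n => (σ ^ n) (f ())
  have he : Function.Bijective e := (Function.bijective_iff_existsUnique e).2 (hσ _)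
  let N : ℤ → ℝ := fun n => dist (e n) (e 0)
  have ad : ∀ m n, (σ ^ m) (e n) = e (m + n) := fun m n => by simp [e, zpow_add]
  have hN : ∀ m n, dist (e m) (e n) = N (m - n) := fun m n => by
    rw [← (σ ^ (-n)).dist_eq, ad, ad, neg_add_cancel, neg_add_eq_sub]
  have t1 : ∀ (n : ℤ) x, (τ ^ n) (ι x) = ι ((σ ^ n) x) := fun n => by
    induction n with
    | zero => simp
    | succ n ih =>
      intro x
      rw [zpow_add_one, zpow_add_one, IsometryEquiv.mul_apply, IsometryEquiv.mul_apply, ← ih, hτ]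
    | pred n ih =>
      intro x
      rw [zpow_sub_one, zpow_sub_one, IsometryEquiv.mul_apply, IsometryEquiv.mul_apply, ← ih]
      exact congrArg _ (τ.injective (by simp [hτ]))
  have t2 : ∀ (m n : ℤ) u, dist ((τ ^ m) u) ((τ ^ n) u) = N (m - n) := fun m n u => by
    refine hd.induction_on u (isClosed_eq (by fun_prop) continuous_const) fun x => ?_
    obtain ⟨k, rfl⟩ := he.2 x
    rw [t1, t1, hι.dist_eq, ad, ad, hN, add_sub_add_right_eq_sub]
  obtain ⟨w, hw⟩ := start h e he N hN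
  obtain ⟨q, q1, q2⟩ := exists_rat_btwn (show 0 < N w - N (2 * w) / 2 by linarith)
  choose s s1 s2 using fun (k : ℕ) w => approach h e he.2 N hN w (q / 2 ^ k) (by positivity)
    ⟨q / 2 ^ k, by have : 0 < q := by exact_mod_cast q1
                   positivity, by simp⟩
  let y : ℕ → ℤ := fun k => Nat.rec (s 0 w) (fun k z => s (k + 1) z) k
  have y1 : ∀ k, N (2 * y k) ≤ q / 2 ^ k := fun k => by cases k <;> exact s1 _ _
  have y2 : ∀ u k, dist ((τ ^ y k) u) ((τ ^ y (k + 1)) u) ≤ q / 2 / 2 ^ k := fun u k => by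
    rw [dist_comm, t2, div_right_comm]
    exact (s2 _ _).trans (by linarith [y1 k])
  choose g hg using fun u => cauchySeq_tendsto_of_complete (cauchySeq_of_le_geometric_two (y2 u))
  have g1 : Isometry g := Isometry.of_dist_eq fun u v => tendsto_nhds_unique ((hg u).dist (hg v))
    (by simpa only [IsometryEquiv.dist_eq] using tendsto_const_nhds)
  have g2 : ∀ u, g (g u) = u := fun u => by
    refine tendsto_nhds_unique (hg (g u)) (tendsto_iff_dist_tendsto_zero.2 (squeeze_zero
      (g := fun k => dist ((τ ^ y k) u) (g u) + q / 2 ^ k) (fun _ => dist_nonneg) (fun k => ?_) ?_))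
    · have := t2 (2 * y k) 0 u
      rw [two_mul, zpow_add, sub_zero, ← two_mul] at this
      simp only [IsometryEquiv.mul_apply, zpow_zero, IsometryEquiv.coe_one, id] at this
      linarith [dist_triangle ((τ ^ y k) (g u)) ((τ ^ y k) ((τ ^ y k) u)) u, y1 k,
        (τ ^ y k).dist_eq (g u) ((τ ^ y k) u), dist_comm (g u) ((τ ^ y k) u)]
    · simpa using (tendsto_iff_dist_tendsto_zero.1 (hg u)).add (tendsto_const_nhds.div_atTop
        (tendsto_pow_atTop_atTop_of_one_lt (one_lt_two (α := ℝ))))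
  refine ⟨⟨⟨g, g, g2, g2⟩, g1⟩, ?_, fun k => ?_, isOfFinOrder_iff_pow_eq_one.2
    ⟨2, two_pos, IsometryEquiv.ext fun u => by rw [pow_two]; exact g2 u⟩⟩
  · letI := TopologicalSpace.induced (fun f : U ≃ᵢ U => (f : U → U)) Pi.topologicalSpace
    refine mem_closure_of_tendsto (f := fun k => τ ^ y k) (b := atTop) ?_
      (.of_forall fun k => ⟨_, rfl⟩)
    rw [nhds_induced, tendsto_comap_iff]
    exact tendsto_pi_nhds.2 hg
  · have a := dist_le_of_le_geometric_two_of_tendsto₀ (y2 (ι (e 0))) (hg _)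
    rw [show g (ι (e 0)) = (τ ^ (0 : ℤ)) (ι (e 0)) from congrArg (· (ι (e 0))) k, t2] at a
    have := dist_triangle (e w) (e (y 0)) (e 0)
    rw [dist_comm (e w) (e (y 0)), hN, hN, hN, sub_zero w] at this
    linarith [show N (y 0 - w) ≤ _ from s2 0 w]

end Pool.Agent.Results.MP_30c7ca_gt.Torsion
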